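import Pool.Agent.U631.CF.Large

/-!
# No eleven classes which are singular modulo two

The classes of a smooth cubic fourfold which are orthogonal to `h` form an even lattice, and
`x ↦ x.x / 2` is a quadratic form modulo `2` on a space of dimension `22`, of minus type. So it has no
totally singular subspace of dimension `11`.
-/

set_option autoImplicit false

namespace Pool.Agent.U631.CF

open Pool.Agent.Y95.Q Pool.Agent.Y95.Q.H4 Pool.Agent.N801.CF Module Matrix

variable {X : CubicFourfold} {H : H4 X}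

/-- there are no eleven independent classes modulo `2` which are singular and pairwise orthogonal -/
theorem no_eleven (hH : H.IsCohomology) {u : Fin 11 → Fin 23 → ℤ}
    (hui : LinearIndependent (ZMod 2) fun i => rd (ZMod 2) (u i))
    (huh' : ∀ i, ∃ k, H.ip H.h (u i) = 8 * k)
    (hself : ∀ i, ∃ m, H.ip (u i) (u i) = 4 * m)
    (hpair : ∀ i j, ∃ m, H.ip (u i) (u j) = 2 * m) : False := by
  choose k huh using huh'
  choose m hm using hself
  choose l hl using hpair
  have h8 : (8 : ZMod 8) = 0 := by decide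
  have hux : ∀ i, ((H.ip (u i) H.h : ℤ) : ZMod 8) = 0 := by
    intro i
    rw [hH.comm, huh]
    push_cast
    rw [h8, zero_mul]
  obtain ⟨Y, hY1, hY2, hY3⟩ := exists_Y hH (ZMod.castHom (show 2 ∣ 8 by norm_num) (ZMod 2))
    (ZMod.ringHom_surjective _) hui hux (by rw [hH.h_self]; decide)
  -- the half of the Gram matrix of the classes
  let S : Matrix (Fin 11) (Fin 11) (ZMod 8) := Matrix.of fun i j => ((l i j : ℤ) : ZMod 8)
  have hl' : ∀ i j, l i j = l j i := by
    intro i j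
    have := hH.comm (u i) (u j)
    rw [hl, hl] at this
    omega
  have hS : Sᵀ = S := by
    ext i j
    simp only [S, transpose_apply, of_apply]
    rw [hl' j i]
  obtain ⟨D, hD⟩ := exists_half_matrix S hS (fun i => ⟨((m i : ℤ) : ZMod 8), by
    have h1 : l i i = 2 * m i := by
      have := hl i i
      rw [hm] at this
      omega
    simp only [S, of_apply]
    rw [h1]
    push_cast
    ring⟩)
  have hUU : MM (ZMod 8) u * BM (ZMod 8) H * (MM (ZMod 8) u)ᵀ = (2 : ZMod 8) • (D + Dᵀ) := by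
    rw [← hD]
    ext i j
    rw [MM_ip, hl, Matrix.smul_apply, smul_eq_mul]
    simp only [S, of_apply]
    push_cast
    ring
  have hR : (Y * BM (ZMod 8) H * Yᵀ)ᵀ = Y * BM (ZMod 8) H * Yᵀ := by
    rw [transpose_mul, transpose_mul, transpose_transpose, BM_symm hH, Matrix.mul_assoc]
  have hRd : ∀ i, ∃ d, (Y * BM (ZMod 8) H * Yᵀ) i i = 2 * d := by
    intro i
    obtain ⟨z, hz⟩ := exists_lift (p := 8) (Y i)
    have e1 : (Y * BM (ZMod 8) H * Yᵀ) i i = ((H.ip z z : ℤ) : ZMod 8) := by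
      rw [← rd_ip, hz]
      simp only [Matrix.mul_apply, dotProduct, mulVec, transpose_apply, Finset.mul_sum,
        Finset.sum_mul]
      rw [Finset.sum_comm]
      exact Finset.sum_congr rfl fun _ _ => Finset.sum_congr rfl fun _ _ => by ring
    have e2 : ((H.ip z H.h : ℤ) : ZMod 8) = 0 := by
      rw [← rd_ip, hz]
      exact congrFun hY3 i
    have e3 := (ZMod.intCast_zmod_eq_zero_iff_dvd _ 8).1 e2
    have e4 := char_dvd hH z
    obtain ⟨d, hd⟩ : ∃ d, H.ip z z = 2 * d := ⟨H.ip z z / 2, by push_cast at e3; omega⟩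
    refine ⟨d, ?_⟩
    rw [e1, hd]
    push_cast
    ring
  obtain ⟨R0, hR0⟩ := exists_half_matrix _ hR hRd
  obtain ⟨e⟩ := card_equiv
  have hUx : MM (ZMod 8) u *ᵥ (BM (ZMod 8) H *ᵥ rd (ZMod 8) H.h) = 0 := by
    ext i
    rw [MM_vec, hux]
    rfl
  -- an isotropic correction
  obtain ⟨U, hU⟩ : ∃ U, U = MM (ZMod 8) u := ⟨_, rfl⟩
  obtain ⟨B, hB⟩ : ∃ B, B = BM (ZMod 8) H := ⟨_, rfl⟩
  have hBs : Bᵀ = B := by rw [hB]; exact BM_symm hH
  rw [← hU, ← hB] at hUU hY1 hY2 hUx
  rw [← hB] at hY3 hR0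
  let E : Matrix (Fin 11) (Fin 11) (ZMod 8) := -D - (2 : ZMod 8) • (D * R0 * Dᵀ)
  let C : Matrix (Fin 11) (Fin 11) (ZMod 8) := (2 : ZMod 8) • E
  have hCY : (U + C * Y) * B * (U + C * Y)ᵀ = 0 := by
    have e1 : (U + C * Y) * B * (U + C * Y)ᵀ = U * B * Uᵀ + C * (Y * B * Uᵀ) +
        (U * B * Yᵀ) * Cᵀ + C * (Y * B * Yᵀ) * Cᵀ := by
      rw [transpose_add, transpose_mul]
      simp only [Matrix.add_mul, Matrix.mul_add, Matrix.mul_assoc]
      abel
    rw [e1, hUU, hY1, hY2, hR0, Matrix.mul_one, Matrix.one_mul]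
    have hEt : Eᵀ = -Dᵀ - (2 : ZMod 8) • (D * R0ᵀ * Dᵀ) := by
      simp only [E, transpose_sub, transpose_neg, transpose_smul, transpose_mul,
        transpose_transpose, Matrix.mul_assoc]
    have hCt : Cᵀ = (2 : ZMod 8) • Eᵀ := by
      simp only [C, transpose_smul]
    rw [hCt, hEt]
    simp only [C, E]
    have k4 : ∀ M : Matrix (Fin 11) (Fin 11) (ZMod 8), (8 : ZMod 8) • M = 0 := by
      intro M
      rw [h8, zero_smul]
    simp only [Matrix.add_mul, Matrix.mul_add, Matrix.sub_mul, Matrix.mul_sub, Matrix.neg_mul,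
      Matrix.mul_neg, Matrix.smul_mul, Matrix.mul_smul, smul_add, smul_sub, smul_neg, smul_smul]
    norm_num
    have z8 : (8 : ZMod 8) = 0 := h8
    have z16 : (16 : ZMod 8) = 0 := by decide
    simp only [z8, z16, zero_smul, Matrix.mul_assoc]
    abel_nf
  obtain ⟨T, hT⟩ : ∃ T, T = (U + C * Y) * B * Yᵀ := ⟨_, rfl⟩
  have hTe : T = 1 + (2 : ZMod 8) • (E * (Y * B * Yᵀ)) := by
    rw [hT, Matrix.add_mul, Matrix.add_mul, hY1]
    simp only [C, Matrix.smul_mul, Matrix.mul_assoc]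
  have hTx : (U + C * Y) *ᵥ (B *ᵥ rd (ZMod 8) H.h) = 0 := by
    rw [Matrix.add_mulVec, hUx, ← Matrix.mulVec_mulVec, hY3, Matrix.mulVec_zero, add_zero]
  obtain ⟨s, hs⟩ := det_of_isotropic e hBs hCY hT.symm hTx hY3 (a := 3)
    (by rw [hB, rd_ip, hH.h_self]; norm_num)
  have hdet : T.det ^ 2 = 1 := by
    apply sq_odd_eight
    rw [RingHom.map_det]
    have : (ZMod.castHom (show 2 ∣ 8 by norm_num) (ZMod 2)).mapMatrix T = 1 := by
      rw [hTe, map_add, map_one]
      have h0 : (ZMod.castHom (show 2 ∣ 8 by norm_num) (ZMod 2)).mapMatrix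
          ((2 : ZMod 8) • (E * (Y * B * Yᵀ))) = 0 := by
        ext i j
        rw [RingHom.mapMatrix_apply, Matrix.map_apply, Matrix.smul_apply, smul_eq_mul, map_mul]
        have : (ZMod.castHom (show 2 ∣ 8 by norm_num) (ZMod 2)) (2 : ZMod 8) = 0 := by decide
        rw [this, zero_mul]
        rfl
      rw [h0, add_zero]
    rw [this, det_one]
  rw [hdet, Fintype.card_fin, hB, BM_det, det_eq_one hH] at hs
  have key : ∀ s : ZMod 8, (-1 : ZMod 8) ^ 11 * 1 * 3 ≠ s ^ 2 * ((1 : ℤ) : ZMod 8) := by decide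
  exact key s hs

end Pool.Agent.U631.CF
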